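import Pool.Agent.Q161.ESF.Stm8

/-!
Project ESF (helper161), job LOC3 (written by helper96): a local criterion.
-/

set_option autoImplicit false

namespace Pool.Agent.Q96.ESF

open Polynomial NumberField

/-- the multiples of the integral elements by the derivative are in the order -/
lemma deriv_mul_mem {A K L : Type} [CommRing A] [IsDomain A] [IsIntegrallyClosed A] [Field K] [Algebra A K]
    [IsFractionRing A K] [Field L] [Algebra K L] [Algebra A L] [IsScalarTower A K L] [FiniteDimensional K L]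
    [Algebra.IsSeparable K L] {x : L} (hx : Algebra.adjoin K {x} = ⊤) (hAx : IsIntegral A x) {z : L} (hz : IsIntegral A z) :
    ∃ Q : A[X], aeval x Q = aeval x (derivative (minpoly K x)) * z := by
  have h := traceForm_dualSubmodule_adjoin A K hx hAx
  have hz' : z ∈ (Algebra.traceForm K L).dualSubmodule (Subalgebra.toSubmodule (Algebra.adjoin A {x})) := by
    rw [LinearMap.BilinForm.mem_dualSubmodule]
    intro y hy
    rw [Algebra.traceForm_apply]
    have hy' : IsIntegral A y := by
      have h1 : Algebra.adjoin A {x} ≤ integralClosure A L :=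
        Algebra.adjoin_le (by
          intro w hw
          rw [Set.mem_singleton_iff.1 hw]
          exact hAx)
      exact h1 hy
    obtain ⟨a, ha⟩ := IsIntegrallyClosed.isIntegral_iff.1 (Algebra.isIntegral_trace (L := K) (hz.mul hy'))
    rw [Submodule.mem_one]
    exact ⟨a, ha⟩
  rw [h] at hz'
  obtain ⟨s, hs, h2⟩ := (Submodule.mem_smul_pointwise_iff_exists _ _ _).1 hz'
  have hne : aeval x (derivative (minpoly K x)) ≠ 0 :=
    (Algebra.IsSeparable.isSeparable K x).aeval_derivative_ne_zero (minpoly.aeval _ _)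
  have h3 : s = aeval x (derivative (minpoly K x)) * z := by
    rw [← h2, smul_eq_mul, mul_inv_cancel_left₀ hne]
  rw [← h3]
  have h4 : s ∈ Algebra.adjoin A {x} := hs
  rw [Algebra.adjoin_singleton_eq_range_aeval] at h4
  exact h4

lemma local_field {R K L k : Type} [CommRing R] [IsDomain R] [IsIntegrallyClosed R] [Field K] [Algebra R K] [IsFractionRing R K]
    [CharZero K] [Field k] (ψ : R →+* k) (h : R[X]) (hm : h.Monic) (hirr : Irreducible (h.map (algebraMap R K))) (y0 : k)
    (h0 : (h.map ψ).eval y0 = 0) (h1 : (h.map ψ).derivative.eval y0 ≠ 0) [Field L] [Algebra K L] [Algebra R L]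
    [IsScalarTower R K L] [FiniteDimensional K L] (y : L) (hy : aeval y h = 0) (hadj : Algebra.adjoin K {y} = ⊤) (A B : R) (x : L)
    (hx : x ^ 3 + algebraMap R L A * x + algebraMap R L B = 0) : ∃ t : k, t ^ 3 + ψ A * t + ψ B = 0 := by
  have hinj : Function.Injective (algebraMap R K) := IsFractionRing.injective R K
  have hyi : IsIntegral R y := ⟨h, hm, by rw [← aeval_def]; exact hy⟩
  have hmin : minpoly K y = h.map (algebraMap R K) := by
    symm
    refine minpoly.eq_of_irreducible_of_monic hirr ?_ (hm.map _)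
    rw [aeval_map_algebraMap]
    exact hy
  -- polynomials which vanish at y vanish at y0
  have hvan : ∀ P : R[X], aeval y P = 0 → (P.map ψ).eval y0 = 0 := by
    intro P hP
    have h2 : h.map (algebraMap R K) ∣ P.map (algebraMap R K) := by
      rw [← hmin]
      refine minpoly.dvd K y ?_
      rw [aeval_map_algebraMap]
      exact hP
    obtain ⟨Q, hQ⟩ := (Polynomial.map_dvd_map (algebraMap R K) hinj hm).1 h2
    rw [hQ, Polynomial.map_mul, eval_mul, h0, zero_mul]
  have hd : aeval y (derivative (minpoly K y)) = aeval y (derivative h) := by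
    rw [hmin, derivative_map, aeval_map_algebraMap]
  have hmul : ∀ z : L, IsIntegral R z → ∃ Q : R[X], aeval y Q = aeval y (derivative h) * z := by
    intro z hz
    obtain ⟨Q, hQ⟩ := deriv_mul_mem (K := K) hadj hyi hz
    exact ⟨Q, by rw [hQ, hd]⟩
  have hxi : IsIntegral R x := by
    refine ⟨X ^ 3 + C A * X + C B, ?_, ?_⟩
    · monicity!
    · rw [eval₂_add, eval₂_add, eval₂_mul, eval₂_X_pow, eval₂_C, eval₂_C, eval₂_X]
      exact hx
  obtain ⟨Q1, hQ1⟩ := hmul x hxi
  obtain ⟨Q2, hQ2⟩ := hmul (x ^ 2) (hxi.pow 2)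
  obtain ⟨Q3, hQ3⟩ := hmul (x ^ 3) (hxi.pow 3)
  obtain ⟨q0, hq0⟩ : ∃ q0 : k, q0 = ((derivative h).map ψ).eval y0 := ⟨_, rfl⟩
  obtain ⟨q1, hq1⟩ : ∃ q1 : k, q1 = (Q1.map ψ).eval y0 := ⟨_, rfl⟩
  obtain ⟨q2, hq2⟩ : ∃ q2 : k, q2 = (Q2.map ψ).eval y0 := ⟨_, rfl⟩
  obtain ⟨q3, hq3⟩ : ∃ q3 : k, q3 = (Q3.map ψ).eval y0 := ⟨_, rfl⟩
  have e1 : q0 * q2 - q1 ^ 2 = 0 := by
    have h2 := hvan (derivative h * Q2 - Q1 ^ 2) (by
      rw [map_sub, map_mul, map_pow, hQ1, hQ2]
      ring)
    rw [Polynomial.map_sub, Polynomial.map_mul, Polynomial.map_pow, eval_sub, eval_mul, eval_pow, ← hq0, ← hq1, ← hq2] at h2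
    exact h2
  have e2 : q0 * q3 - q1 * q2 = 0 := by
    have h2 := hvan (derivative h * Q3 - Q1 * Q2) (by
      rw [map_sub, map_mul, map_mul, hQ1, hQ2, hQ3]
      ring)
    rw [Polynomial.map_sub, Polynomial.map_mul, Polynomial.map_mul, eval_sub, eval_mul, eval_mul, ← hq0, ← hq1, ← hq2, ← hq3] at h2
    exact h2
  have e3 : q3 + ψ A * q1 + ψ B * q0 = 0 := by
    have h2 := hvan (Q3 + C A * Q1 + C B * derivative h) (by
      rw [map_add, map_add, map_mul, map_mul, aeval_C, aeval_C, hQ1, hQ3]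
      linear_combination (aeval y (derivative h)) * hx)
    rw [Polynomial.map_add, Polynomial.map_add, Polynomial.map_mul, Polynomial.map_mul, map_C, map_C, eval_add, eval_add, eval_mul,
      eval_mul, eval_C, eval_C, ← hq0, ← hq1, ← hq3] at h2
    exact h2
  have hq00 : q0 ≠ 0 := by
    rw [hq0, ← derivative_map]
    exact h1
  refine ⟨q1 / q0, ?_⟩
  have e4 : q1 ^ 3 = q0 ^ 2 * q3 := by linear_combination (-q1) * e1 - q0 * e2
  field_simp
  linear_combination e4 + q0 ^ 2 * e3

lemma simple_factor {R K k : Type} [CommRing R] [IsDomain R] [IsIntegrallyClosed R] [Field K] [Algebra R K] [IsFractionRing R K]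
    [Field k] (ψ : R →+* k) (y0 : k) : ∀ (n : ℕ) (g : R[X]), g.natDegree ≤ n → g.Monic → (g.map ψ).eval y0 = 0 →
    (g.map ψ).derivative.eval y0 ≠ 0 → ∃ h : R[X], h.Monic ∧ h ∣ g ∧ Irreducible (h.map (algebraMap R K)) ∧
      (h.map ψ).eval y0 = 0 ∧ (h.map ψ).derivative.eval y0 ≠ 0 := by
  have hinj : Function.Injective (algebraMap R K) := IsFractionRing.injective R K
  intro n
  induction n with
  | zero =>
    intro g hn hm h0 _
    exfalso
    have h2 : g = 1 := hm.natDegree_eq_zero.1 (Nat.le_zero.1 hn)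
    rw [h2] at h0
    simp at h0
  | succ n ih =>
    intro g hn hm h0 h1
    have hgK : (g.map (algebraMap R K)).Monic := hm.map _
    have hnu : ¬ IsUnit (g.map (algebraMap R K)) := by
      intro hu
      have h2 : g.map (algebraMap R K) = 1 := hgK.eq_one_of_isUnit hu
      have h3 : g = 1 := by
        apply Polynomial.map_injective (algebraMap R K) hinj
        rw [h2, Polynomial.map_one]
      rw [h3] at h0
      simp at h0
    obtain ⟨hK, hKm, hKi, hKd⟩ := Polynomial.exists_monic_irreducible_factor _ hnu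
    obtain ⟨h, hh⟩ := IsIntegrallyClosed.eq_map_mul_C_of_dvd K hm hKd
    rw [hKm.leadingCoeff, C_1, mul_one] at hh
    have hhm : h.Monic := Polynomial.monic_of_injective hinj (by rw [hh]; exact hKm)
    have hhd : h ∣ g := by
      rw [← Polynomial.map_dvd_map (algebraMap R K) hinj hhm, hh]
      exact hKd
    obtain ⟨q, hq⟩ := hhd
    have hqm : q.Monic := hhm.of_mul_monic_left (by rw [← hq]; exact hm)
    have h2 : (h.map ψ).eval y0 * (q.map ψ).eval y0 = 0 := by
      rw [← eval_mul, ← Polynomial.map_mul, ← hq]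
      exact h0
    have h3 : (h.map ψ).derivative.eval y0 * (q.map ψ).eval y0 + (h.map ψ).eval y0 * (q.map ψ).derivative.eval y0 ≠ 0 := by
      rw [← eval_mul, ← eval_mul, ← eval_add, ← derivative_mul, ← Polynomial.map_mul, ← hq]
      exact h1
    rcases mul_eq_zero.1 h2 with h4 | h4
    · refine ⟨h, hhm, ⟨q, hq⟩, by rw [hh]; exact hKi, h4, ?_⟩
      rw [h4, zero_mul, add_zero] at h3
      exact left_ne_zero_of_mul h3
    · rw [h4, mul_zero, zero_add] at h3
      have h5 : 0 < h.natDegree := by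
        have h6 := hKi.natDegree_pos
        rw [← hh, hhm.natDegree_map] at h6
        exact h6
      have h7 : g.natDegree = h.natDegree + q.natDegree := by rw [hq, hhm.natDegree_mul hqm]
      obtain ⟨h', a1, a2, a3, a4, a5⟩ := ih q (by omega) hqm h4 (right_ne_zero_of_mul h3)
      exact ⟨h', a1, a2.trans ⟨h, by rw [hq, mul_comm]⟩, a3, a4, a5⟩

open Pool.Agent.Q161.ESF in
theorem loc3 : S_LOC3 := by
  intro M _ _ p _ ψ A B A' B' hno hyes x hx
  obtain ⟨y0, hy0, hy1⟩ := hyes
  obtain ⟨g, hg⟩ : ∃ g : (𝓞 M)[X], g = X ^ 3 + C A' * X + C B' := ⟨_, rfl⟩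
  have hgm : g.Monic := by
    rw [hg]
    monicity!
  have hg0 : (g.map ψ).eval y0 = 0 := by
    rw [hg]
    simp only [Polynomial.map_add, Polynomial.map_mul, Polynomial.map_pow, map_X, map_C, eval_add, eval_mul, eval_pow, eval_X, eval_C]
    exact hy0
  have hg1 : (g.map ψ).derivative.eval y0 ≠ 0 := by
    rw [hg]
    simp only [Polynomial.map_add, Polynomial.map_mul, Polynomial.map_pow, map_X, map_C, derivative_add, derivative_mul,
      derivative_X_pow, derivative_C, derivative_X, eval_add, eval_mul, eval_pow, eval_X, eval_C,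
      zero_mul, zero_add, mul_one, add_zero, Nat.cast_ofNat]
    exact hy1
  obtain ⟨h, hhm, hhd, hhi, hh0, hh1⟩ := simple_factor (K := M) ψ y0 g.natDegree g le_rfl hgm hg0 hg1
  have hgM : g.map (algebraMap (𝓞 M) M) = X ^ 3 + C (A' : M) * X + C (B' : M) := by
    rw [hg]
    simp only [Polynomial.map_add, Polynomial.map_mul, Polynomial.map_pow, map_X, map_C]
  have : Fact (Irreducible (h.map (algebraMap (𝓞 M) M))) := ⟨hhi⟩
  have hne : h.map (algebraMap (𝓞 M) M) ≠ 0 := hhi.ne_zero
  have : FiniteDimensional M (AdjoinRoot (h.map (algebraMap (𝓞 M) M))) := (AdjoinRoot.powerBasis hne).finite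
  have hroot : aeval (AdjoinRoot.root (h.map (algebraMap (𝓞 M) M))) h = 0 := by
    have h2 := AdjoinRoot.aeval_eq (f := h.map (algebraMap (𝓞 M) M)) (h.map (algebraMap (𝓞 M) M))
    rw [AdjoinRoot.mk_self, aeval_map_algebraMap] at h2
    exact h2
  have hev : (X ^ 3 + C (A' : M) * X + C (B' : M) : M[X]).eval₂ (AdjoinRoot.of (h.map (algebraMap (𝓞 M) M)))
      (AdjoinRoot.root (h.map (algebraMap (𝓞 M) M))) = 0 := by
    rw [← hgM]
    obtain ⟨q, hq⟩ := hhd
    rw [hq, Polynomial.map_mul, eval₂_mul, AdjoinRoot.eval₂_root, zero_mul]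
  have h3 := congrArg (AdjoinRoot.lift (AdjoinRoot.of (h.map (algebraMap (𝓞 M) M))) _ hev) hx
  simp only [map_add, map_mul, map_pow, AdjoinRoot.lift_of, map_zero] at h3
  obtain ⟨t, ht⟩ := local_field (K := M) ψ h hhm hhi y0 hh0 hh1 (AdjoinRoot.root (h.map (algebraMap (𝓞 M) M))) hroot
    AdjoinRoot.adjoinRoot_eq_top A B _ h3
  exact hno t ht

end Pool.Agent.Q96.ESF
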